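import Pool.Agent.Helper26.UM.Stmts

/-!
Row UCARD of project UM (`MP_7e6c00_al`): an infinite set `X` has `2 ^ (2 ^ #X)` ultrafilters
(Pospisil).
-/

set_option autoImplicit false

namespace Pool.Agent.Helper50.UM

open Cardinal Set Pool.Agent.Helper63.INV Pool.Agent.Helper26.UM

universe u

open scoped Classical in
/-- the independent family -/
def Ind {X : Type u} (A : Set X) : Set (Finset X × Finset (Finset X)) :=
  {p | p.1.filter (fun x => x ∈ A) ∈ p.2}

open scoped Classical in
theorem ind_fip {X : Type u} [Nonempty X] (B : Set (Set X)) (T : Finset (Set X)) :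
    ∃ p : Finset X × Finset (Finset X), ∀ A ∈ T, (p ∈ Ind A ↔ A ∈ B) := by
  have h1 : ∀ A A' : Set X, A ≠ A' → ∃ x, ¬ (x ∈ A ↔ x ∈ A') := by
    intro A A' h
    by_contra hcon
    push Not at hcon
    exact h (Set.ext hcon)
  choose! f hf using h1
  let F : Finset X := (T ×ˢ T).image fun q => f q.1 q.2
  let S : Finset (Finset X) := (T.filter fun A => A ∈ B).image fun A => F.filter fun x => x ∈ A
  refine ⟨(F, S), fun A hA => ?_⟩
  constructor
  · intro h
    have h2 : F.filter (fun x => x ∈ A) ∈ S := h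
    obtain ⟨A', hA', he⟩ := Finset.mem_image.1 h2
    rw [Finset.mem_filter] at hA'
    by_cases hne : A = A'
    · rw [hne]
      exact hA'.2
    · exfalso
      have h3 : f A A' ∈ F := Finset.mem_image.2 ⟨(A, A'), Finset.mem_product.2 ⟨hA, hA'.1⟩, rfl⟩
      apply hf A A' hne
      have h4 : ∀ C : Set X, f A A' ∈ F.filter (fun x => x ∈ C) ↔ f A A' ∈ C := by
        intro C
        rw [Finset.mem_filter]
        exact ⟨fun h => h.2, fun h => ⟨h3, h⟩⟩
      rw [← h4 A, ← h4 A', he]
  · intro h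
    change F.filter (fun x => x ∈ A) ∈ S
    exact Finset.mem_image.2 ⟨A, Finset.mem_filter.2 ⟨hA, h⟩, rfl⟩

theorem ind_ultra {X : Type u} [Nonempty X] (B : Set (Set X)) :
    ∃ U : Ultrafilter (Finset X × Finset (Finset X)), ∀ A : Set X,
      (A ∈ B → Ind A ∈ U) ∧ (A ∉ B → (Ind A)ᶜ ∈ U) := by
  classical
  let S : Set (Set (Finset X × Finset (Finset X))) :=
    {J | ∃ A : Set X, (A ∈ B ∧ J = Ind A) ∨ (A ∉ B ∧ J = (Ind A)ᶜ)}
  obtain ⟨U, hU⟩ := Ultrafilter.exists_ultrafilter_of_finite_inter_nonempty S (by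
    intro T hT
    have h1 : ∀ J ∈ T, ∃ A : Set X, (A ∈ B ∧ J = Ind A) ∨ (A ∉ B ∧ J = (Ind A)ᶜ) :=
      fun J hJ => hT hJ
    choose! c hc using h1
    obtain ⟨p, hp⟩ := ind_fip B (T.image c)
    refine ⟨p, fun J hJ => ?_⟩
    have h2 := hp (c J) (Finset.mem_image.2 ⟨J, hJ, rfl⟩)
    rcases hc J hJ with ⟨h3, h4⟩ | ⟨h3, h4⟩
    · rw [h4]
      exact h2.2 h3
    · rw [h4]
      exact fun h5 => h3 (h2.1 h5))
  exact ⟨U, fun A => ⟨fun h => hU ⟨A, Or.inl ⟨h, rfl⟩⟩, fun h => hU ⟨A, Or.inr ⟨h, rfl⟩⟩⟩⟩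

theorem st_UCARD : ST_UCARD.{u} := by
  classical
  intro X hX
  have hY : #(Finset X × Finset (Finset X)) = #X := by
    rw [Cardinal.mk_prod, Cardinal.lift_id, Cardinal.lift_id, Cardinal.mk_finset_of_infinite,
      Cardinal.mk_finset_of_infinite, Cardinal.mk_finset_of_infinite]
    exact Cardinal.mul_eq_self (Cardinal.aleph0_le_mk X)
  obtain ⟨e⟩ := Cardinal.eq.1 hY
  choose U hU using fun B : Set (Set X) => ind_ultra B
  have hinj : Function.Injective U := by
    have key : ∀ B B' : Set (Set X), U B = U B' → B ⊆ B' := by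
      intro B B' h A hA
      by_contra hcon
      have h1 := (hU B A).1 hA
      have h2 := (hU B' A).2 hcon
      rw [← h] at h2
      exact (Ultrafilter.compl_mem_iff_notMem.1 h2) h1
    intro B B' h
    exact Set.Subset.antisymm (key B B' h) (key B' B h.symm)
  have hmap : Function.Injective (fun V : Ultrafilter (Finset X × Finset (Finset X)) =>
      V.map e) := by
    intro V W h
    apply Ultrafilter.coe_injective
    have h1 : (V.map e : Filter X) = (W.map e : Filter X) :=
      congrArg (fun Z : Ultrafilter X => (Z : Filter X)) h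
    rw [Ultrafilter.coe_map, Ultrafilter.coe_map] at h1
    exact Filter.map_injective e.injective h1
  have h3 := Cardinal.mk_le_of_injective (hmap.comp hinj)
  rwa [Cardinal.mk_set, Cardinal.mk_set] at h3

end Pool.Agent.Helper50.UM
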